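import Pool.Agent.helper69.SN.SpecB
import Pool.Agent.helper53.SC.HS1

/-!
Project sn, row bSCD: at a local maximum of a smooth function minus the Hessian is positive semidefinite.
-/

open scoped Pointwise ContDiff
open MeasureTheory Set Filter Topology

namespace Pool.Agent.helper69.SN

open Pool.Agent.helper83.SC

theorem bSCD_nonpos {m : ℕ} {f : E m → ℝ} (hf : ContDiff ℝ ∞ f) {x : E m} (hx : IsLocalMax f x) (v : E m) :
    fderiv ℝ (fderiv ℝ f) x v v ≤ 0 := by
  have hgd : ∀ t : ℝ, HasDerivAt (fun t : ℝ => f (x + t • v)) (fderiv ℝ f (x + t • v) v) t := by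
    intro t
    have h1 : HasFDerivAt f (fderiv ℝ f (x + t • v)) (x + t • v) :=
      (hf.differentiable (by simp) _).hasFDerivAt
    have h2 : HasDerivAt (fun t : ℝ => x + t • v) v t := by
      simpa using ((hasDerivAt_id t).smul_const v).const_add x
    exact h1.comp_hasDerivAt t h2
  have hderiv : deriv (fun t : ℝ => f (x + t • v)) = fun t => fderiv ℝ f (x + t • v) v := by
    funext t
    exact (hgd t).deriv
  have hd2 : HasDerivAt (fun t : ℝ => fderiv ℝ f (x + t • v) v)
      (fderiv ℝ (fderiv ℝ f) x v v) 0 := by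
    have h1 : HasFDerivAt (fderiv ℝ f) (fderiv ℝ (fderiv ℝ f) (x + (0 : ℝ) • v))
        (x + (0 : ℝ) • v) :=
      ((hf.fderiv_right (m := ∞) (by simp)).differentiable (by simp) _).hasFDerivAt
    have h2 : HasDerivAt (fun t : ℝ => x + t • v) v (0 : ℝ) := by
      simpa using ((hasDerivAt_id (0 : ℝ)).smul_const v).const_add x
    have h3 := h1.comp_hasDerivAt (0 : ℝ) h2
    have h4 := h3.clm_apply (hasDerivAt_const (0 : ℝ) v)
    simpa using h4
  have hdd : deriv (deriv (fun t : ℝ => f (x + t • v))) 0 = fderiv ℝ (fderiv ℝ f) x v v := by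
    rw [hderiv]; exact hd2.deriv
  have hmax : IsLocalMax (fun t : ℝ => f (x + t • v)) 0 := by
    have hc : ContinuousAt (fun t : ℝ => x + t • v) 0 := by fun_prop
    have h0 : x + (0 : ℝ) • v = x := by simp
    have h1 : ∀ᶠ y in 𝓝 (x + (0 : ℝ) • v), f y ≤ f x := by rw [h0]; exact hx
    have h2 := hc.eventually h1
    filter_upwards [h2] with t ht
    simpa using ht
  by_contra hcon
  have hpos : 0 < deriv (deriv (fun t : ℝ => f (x + t • v))) 0 := by
    rw [hdd]; exact not_le.mp hcon
  have hmin : IsLocalMin (fun t : ℝ => f (x + t • v)) 0 :=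
    isLocalMin_of_deriv_deriv_pos hpos hmax.deriv_eq_zero (hgd 0).continuousAt
  have hconst : (fun t : ℝ => f (x + t • v)) =ᶠ[𝓝 0] fun _ => f (x + (0 : ℝ) • v) := by
    filter_upwards [hmax, hmin] with t h1 h2
    exact le_antisymm h1 h2
  have h3 : deriv (fun t : ℝ => f (x + t • v)) =ᶠ[𝓝 0] fun _ => (0 : ℝ) := by
    have := hconst.deriv
    filter_upwards [this] with t ht
    rw [ht]; simp
  have h4 := h3.deriv_eq
  rw [h4] at hpos
  simp at hpos

theorem bSCD_of : bSCD_stmt := by
  intro m f x hf hx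
  have hsym : (-(hess f x)).IsHermitian := by
    ext i j
    simp only [hess, Matrix.conjTranspose_apply, Matrix.neg_apply, Matrix.of_apply, star_trivial]
    rw [HS1_dd hf, HS1_dd hf, HS1_symm hf]
  refine Matrix.PosSemidef.of_dotProduct_mulVec_nonneg hsym ?_
  intro v
  have h := bSCD_nonpos hf hx (WithLp.toLp 2 v)
  have h1 : (WithLp.toLp 2 v : E m) = ∑ i, v i • (e i : E m) := (HS1_sum (WithLp.toLp 2 v)).symm
  rw [h1] at h
  simp only [map_sum, map_smul, FunLike.coe_sum, FunLike.coe_smul, Finset.sum_apply, 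
      Pi.smul_apply, smul_eq_mul] at h
  simp only [dotProduct, Matrix.mulVec, hess, Matrix.neg_apply, Matrix.of_apply, star_trivial, Pi.star_apply]
  have h2 : ∀ i j, pd i (pd j f) x = fderiv ℝ (fderiv ℝ f) x (e i) (e j) := fun i j => HS1_dd hf i j x
  simp only [h2]
  have h3 : ∑ i, v i * ∑ j, -(fderiv ℝ (fderiv ℝ f) x (e i) (e j)) * v j =
      -(∑ i, v i * ∑ j, (fderiv ℝ (fderiv ℝ f) x (e i) (e j)) * v j) := by
    rw [← Finset.sum_neg_distrib]
    refine Finset.sum_congr rfl fun i _ => ?_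
    rw [← mul_neg, ← Finset.sum_neg_distrib]
    congr 1
    refine Finset.sum_congr rfl fun j _ => ?_
    ring
  rw [h3]
  have h4 : ∑ i, v i * ∑ j, (fderiv ℝ (fderiv ℝ f) x (e i) (e j)) * v j ≤ 0 := by
    refine le_trans (le_of_eq ?_) h
    simp only [Finset.mul_sum]
    rw [Finset.sum_comm]
    refine Finset.sum_congr rfl fun i _ => Finset.sum_congr rfl fun j _ => ?_
    ring
  linarith

end Pool.Agent.helper69.SN
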