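import Pool.Agent.helper40.SN.SpecD
import Pool.Agent.helper53.SC.HS1

/-!
Project sn, row dCMP: comparison on the ball of radius `2ρ`.
-/

open scoped Pointwise ContDiff
open MeasureTheory Set Filter Topology Pool.Agent.helper83.SC Pool.Agent.helper69.SN

namespace Pool.Agent.helper40.SN

theorem dCMP (hCMP : Pool.Agent.helper28.SN.cCMP_stmt) (hCNT : Pool.Agent.helper28.SN.cCNT_stmt)
    (hDER : aDER_stmt) (hDNN : aDNN_stmt) : dCMP_stmt := by
  intro m n T ρ K c a N F V X hρ hρ1 hK hc ha hN hV hX hoff hF hFsub hFV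
  set lam : Fin n → ℝ := wt T K ∅ 0 with hlamdef
  have hlam : ∀ i, 0 ≤ lam i := by
    intro i
    simp only [hlamdef, wt]
    split_ifs
    · exact hK
    · exact le_rfl
    · exact le_rfl
  have hPsd : ∀ x, Psd (hs a lam x) := by
    intro x i
    exact (hess_psd_of (ha i).1 (ha i).2 x).smul (hlam i)
  have hb : SmC (fun _ : E m => (0 : ℝ)) := ⟨contDiff_const, convexOn_const 0 convex_univ⟩
  have hzero : ∀ (B : Fin n → Mat m) (A M : Mat m), dPh B 0 A M = Ph B M :=
    fun B A M => (hDER B A M 0 0).2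
  have hcont : ∀ Y : E m → ℝ, ContDiff ℝ ∞ Y → Continuous fun x => Ph (hs a lam x) (hess Y x) := by
    intro Y hY
    have h := hCNT a lam (fun _ : E m => (0 : ℝ)) Y 0 (fun i => (ha i).1) hb.1 hY
    simpa only [hzero] using h
  have hnn : ∀ Y : E m → ℝ, InCl T K a Y → ∀ x, ‖x‖ ≤ 1 → 0 ≤ Ph (hs a lam x) (hess Y x) := by
    intro Y hY x hx
    have h := (hDNN (hs a lam x) (hPsd x) 0 (hess Y x) Matrix.PosSemidef.zero (hY.2 x hx)).1 0
    rwa [hzero] at h
  have hball : ∀ x ∈ Metric.ball (0 : E m) (2 * ρ), ‖x‖ ≤ 1 := by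
    intro x hx
    have : ‖x‖ < 2 * ρ := by simpa using hx
    linarith
  have hinN : ∀ x, ‖x‖ ≤ 2 * ρ → X x ≤ V x → x ∈ N := by
    intro x hx hle
    by_contra h
    have := hoff x hx h
    linarith
  have hNball : ∀ x ∈ N, x ∈ Metric.ball (0 : E m) (2 * ρ) := by
    intro x hx
    have h := hN (subset_closure hx)
    have h1 : ‖x‖ < ρ := by simpa using h
    simp only [Metric.mem_ball, dist_zero_right]
    linarith
  have hcomp : IsCompact {x | x ∈ Metric.ball (0 : E m) (2 * ρ) ∧ X x ≤ V x} := by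
    have heq : {x | x ∈ Metric.ball (0 : E m) (2 * ρ) ∧ X x ≤ V x} =
        Metric.closedBall (0 : E m) (2 * ρ) ∩ {x | X x ≤ V x} := by
      ext x
      constructor
      · rintro ⟨h1, h2⟩
        exact ⟨Metric.ball_subset_closedBall h1, h2⟩
      · rintro ⟨h1, h2⟩
        have h3 : ‖x‖ ≤ 2 * ρ := by simpa using h1
        exact ⟨hNball x (hinN x h3 h2), h2⟩
    rw [heq]
    exact (isCompact_closedBall _ _).inter_right (isClosed_le hX.1.continuous hV.1.continuous)
  have hmain := hCMP a lam (fun _ : E m => (0 : ℝ)) V X 0 (Metric.ball (0 : E m) (2 * ρ)) ha hlam hb hV.1 hX.1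
    Metric.isOpen_ball hcomp (fun x hx => ⟨hV.2 x (hball x hx), hX.2 x (hball x hx)⟩)
  simp only [hzero] at hmain
  have hint : ∀ Y : E m → ℝ, ContDiff ℝ ∞ Y →
      IntegrableOn (fun x => Ph (hs a lam x) (hess Y x)) (Metric.closedBall (0 : E m) 1) := by
    intro Y hY
    exact (hcont Y hY).continuousOn.integrableOn_compact (isCompact_closedBall _ _)
  have hS1meas : MeasurableSet {x | x ∈ Metric.ball (0 : E m) (2 * ρ) ∧ X x < V x} := by
    have : IsOpen {x | x ∈ Metric.ball (0 : E m) (2 * ρ) ∧ X x < V x} :=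
      Metric.isOpen_ball.inter (isOpen_lt hX.1.continuous hV.1.continuous)
    exact this.measurableSet
  have hS1sub : {x | x ∈ Metric.ball (0 : E m) (2 * ρ) ∧ X x < V x} ⊆ Metric.closedBall (0 : E m) 1 := by
    rintro x ⟨h1, _⟩
    simpa using hball x h1
  have hNsub : closure N ⊆ Metric.closedBall (0 : E m) 1 := by
    intro x hx
    have h1 : ‖x‖ < ρ := by simpa using hN hx
    simp only [Metric.mem_closedBall, dist_zero_right]
    linarith
  have h1 : ms T K a F V ≤
      ∫ x in {x | x ∈ Metric.ball (0 : E m) (2 * ρ) ∧ X x < V x}, Ph (hs a lam x) (hess V x) := by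
    refine setIntegral_mono_set ((hint V hV.1).mono_set hS1sub) ?_ ?_
    · refine (ae_restrict_iff' hS1meas).mpr (Filter.Eventually.of_forall fun x hx => ?_)
      exact hnn V hV x (by simpa using hS1sub hx)
    · exact HasSubset.Subset.eventuallyLE fun x hx => ⟨hFsub hx, hFV x hx⟩
  have h2 : ∫ x in {x | x ∈ Metric.ball (0 : E m) (2 * ρ) ∧ X x ≤ V x}, Ph (hs a lam x) (hess X x) ≤
      ms T K a (closure N) X := by
    refine setIntegral_mono_set ((hint X hX.1).mono_set hNsub) ?_ ?_
    · refine (ae_restrict_iff' isClosed_closure.measurableSet).mpr (Filter.Eventually.of_forall fun x hx => ?_)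
      exact hnn X hX x (by simpa using hNsub hx)
    · refine HasSubset.Subset.eventuallyLE fun x hx => ?_
      have h3 : ‖x‖ ≤ 2 * ρ := by
        have : ‖x‖ < 2 * ρ := by simpa using hx.1
        exact this.le
      exact subset_closure (hinN x h3 hx.2)
  exact h1.trans (hmain.trans h2)

end Pool.Agent.helper40.SN
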